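import Pool.Agent.H218R3.ExA

set_option autoImplicit false
open Set Metric

namespace Pool.Agent.Results.MP_571b65_an.SingletonComponents

open Pool.Agent.H218R3.Fat

/-- The connected components of a subset of the Riemann sphere. -/
def sphereComponents (S : Set (OnePoint ℂ)) : Set (Set (OnePoint ℂ)) :=
  {K | ∃ x ∈ S, K = connectedComponentIn S x}

/-- There is a transcendental entire function `f` with a multiply connected wandering domain
`U = V 0` (the Fatou components `V n` contain the images of `U` under the iterates of `f` and are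
pairwise distinct, and the complement of `U` has a bounded component) which has infinite inner
connectivity (for each `z₀` in `U` and all large `n` the domain `V n ∩ {|z| < |f^n(z₀)|}` has
infinite connectivity: its complement in the Riemann sphere has infinitely many components), and
such that uncountably many components of the complement of `U` are singletons. -/
theorem result : ∃ (f : ℂ → ℂ) (V : ℕ → Set ℂ),
    Differentiable ℂ f ∧ (¬ ∃ p : Polynomial ℂ, ∀ z, f z = p.eval z) ∧
    (∀ n, IsFatouComponent f (V n) ∧ f^[n] '' V 0 ⊆ V n) ∧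
    (∀ n m, n ≠ m → V n ≠ V m) ∧
    (∃ q ∈ (V 0)ᶜ, Bornology.IsBounded (connectedComponentIn (V 0)ᶜ q)) ∧
    (∀ z₀ ∈ V 0, ∃ N, ∀ n ≥ N, (sphereComponents
      ((fun z : ℂ => (z : OnePoint ℂ)) '' (V n ∩ ball 0 ‖f^[n] z₀‖))ᶜ).Infinite) ∧
    ¬ {z | z ∈ (V 0)ᶜ ∧ connectedComponentIn (V 0)ᶜ z = {z}}.Countable := by
  obtain ⟨f, ζ, ε, T⟩ := Pool.Agent.H218R3.Ser.exA
  have S := T.skel
  refine ⟨f, fun n => UU f ζ (n + 1), S.diff, S.not_poly, fun n => ⟨S.isFatouComponent_UU _, ?_⟩,
    fun n m hnm => S.UU_ne (by omega), ⟨0, S.zero_not_mem _, S.bounded_hole _⟩, ?_,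
    Skel.uncountable_singletons T _⟩
  · rintro _ ⟨z, hz, rfl⟩
    have := S.iter_UU n hz
    rwa [show 0 + 1 + n = n + 1 by ring] at this
  · intro z₀ hz₀
    obtain ⟨N, hN⟩ := Filter.eventually_atTop.mp (S.ratio_UU hz₀ 2)
    refine ⟨N, fun n hn => ?_⟩
    have h1 := hN n hn
    rw [show 0 + 1 + n = n + 1 by ring] at h1
    exact Skel.infinite_inner T (n + 1) h1

end Pool.Agent.Results.MP_571b65_an.SingletonComponents
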